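import Pool.Agent.Work.MP_6f78fb_rk.Orbit

/-!
# The statement in short form

The graded pieces `VT n m r d` of `R(UZ_{n,m,r})` as types, their tensor products `TV`, the
actions of `S_n × S_m` on them, and equivariant log-concavity.
-/

open scoped TensorProduct

noncomputable section

namespace Pool.RookLC

/-- The degree `d` part `V_d` of `R(UZ_{n,m,r})`, as a type. -/
def VT (n m r d : ℕ) : Type := ↥(V n m r d)

instance VT.acg (n m r d : ℕ) : AddCommGroup (VT n m r d) :=
  inferInstanceAs (AddCommGroup ↥(V n m r d))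

instance VT.mod (n m r d : ℕ) : Module ℂ (VT n m r d) :=
  inferInstanceAs (Module ℂ ↥(V n m r d))

/-- The action of a group element on `R(UZ_{n,m,r})`, as a function. -/
def actRf (n m r : ℕ) (g : G n m) (x : RR n m r) : RR n m r := actR n m r g x

/-- Membership in `V_d`. -/
def InV (n m r d : ℕ) (x : RR n m r) : Prop := x ∈ V n m r d

theorem actRf_mem {n m r : ℕ} (d : ℕ) (g : G n m) {x : RR n m r} (hx : InV n m r d x) :
    InV n m r d (actRf n m r g x) := actR_mem d g x hx

/-- The action of a group element on `V_d`, as a function. -/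
def actVf (n m r d : ℕ) (g : G n m) (x : VT n m r d) : VT n m r d :=
  ⟨actRf n m r g x.1, actRf_mem d g x.2⟩

theorem actVf_add {n m r d : ℕ} (g : G n m) (x y : VT n m r d) :
    actVf n m r d g (x + y) = actVf n m r d g x + actVf n m r d g y :=
  Subtype.ext (map_add (actR n m r g) x.1 y.1)

theorem actVf_smul {n m r d : ℕ} (g : G n m) (c : ℂ) (x : VT n m r d) :
    actVf n m r d g (c • x) = c • actVf n m r d g x :=
  Subtype.ext (map_smul (actR n m r g) c x.1)

/-- The action of `S_n × S_m` on `V_d`. -/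
def actVT (n m r d : ℕ) (g : G n m) : VT n m r d →ₗ[ℂ] VT n m r d where
  toFun := actVf n m r d g
  map_add' := actVf_add g
  map_smul' := actVf_smul g

/-- `V_a ⊗ V_b`. -/
def TV (n m r a b : ℕ) : Type := VT n m r a ⊗[ℂ] VT n m r b

instance TV.acg (n m r a b : ℕ) : AddCommGroup (TV n m r a b) :=
  inferInstanceAs (AddCommGroup (VT n m r a ⊗[ℂ] VT n m r b))

instance TV.mod (n m r a b : ℕ) : Module ℂ (TV n m r a b) :=
  inferInstanceAs (Module ℂ (VT n m r a ⊗[ℂ] VT n m r b))

/-- The diagonal action of `S_n × S_m` on `V_a ⊗ V_b`. -/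
def actTV (n m r a b : ℕ) (g : G n m) : TV n m r a b → TV n m r a b :=
  TensorProduct.map (actVT n m r a g) (actVT n m r b g)

/-- There is a surjective homomorphism of `S_n × S_m`-modules
`V_i ⊗ V_i ↠ V_{i-1} ⊗ V_{i+1}`. -/
def HasSurj (n m r i : ℕ) : Prop :=
  ∃ Φ : TV n m r i i → TV n m r (i - 1) (i + 1), IsLinearMap ℂ Φ ∧ Function.Surjective Φ ∧
    ∀ (g : G n m) (x : TV n m r i i),
      Φ (actTV n m r i i g x) = actTV n m r (i - 1) (i + 1) g (Φ x)

/-- `N` is the top degree of `R(UZ_{n,m,r})`. -/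
def TopDeg (n m r N : ℕ) : Prop :=
  Nontrivial (VT n m r N) ∧ ∀ d, N < d → Subsingleton (VT n m r d)

/-- `R(UZ_{n,m,r})` is `S_n × S_m`-equivariantly log-concave. -/
def EquivLogConcave (n m r : ℕ) : Prop :=
  ∀ N, TopDeg n m r N → ∀ i, 1 < i → i < N → HasSurj n m r i

theorem hasSurj_of {n m r i : ℕ} (h : Surj n m r i) : HasSurj n m r i := by
  obtain ⟨Φ, h1, h2⟩ := h
  exact ⟨Φ, Φ.isLinear, h1, fun g x => LinearMap.congr_fun (h2 g) x⟩

theorem isTop_of {n m r N : ℕ} (h : TopDeg n m r N) : IsTop n m r N := by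
  obtain ⟨h1, h2⟩ := h
  refine ⟨fun h => ?_, fun d hd => ?_⟩
  · obtain ⟨x, y, hxy⟩ := h1
    apply hxy
    have hb : ∀ z : ↥(V n m r N), z = 0 := by
      rintro ⟨z, hz⟩
      rw [h, Submodule.mem_bot] at hz
      exact Subtype.ext hz
    exact (hb x).trans (hb y).symm
  · rw [Submodule.eq_bot_iff]
    intro x hx
    have h3 : Subsingleton ↥(V n m r d) := h2 d hd
    exact congrArg Subtype.val (Subsingleton.elim (⟨x, hx⟩ : ↥(V n m r d)) 0)

theorem equivLogConcave_of {n m r : ℕ} (h : LogConc n m r) : EquivLogConcave n m r :=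
  fun N hN i hi hiN => hasSurj_of (h N (isTop_of hN) i hi hiN)

end Pool.RookLC
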