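import Pool.Agent.Work.MP_6f78fb_rk.Orbit

/-!
# Marked rook placements, harmonic functions, flips

A configuration `α : Cf n m` gives to each row one of the states `none` (empty),
`some none` (marked) and `some (some j)` (rook in column `j`).
-/

open scoped BigOperators TensorProduct
open Classical

noncomputable section

namespace Pool.RookLC

abbrev St (m : ℕ) := Option (Option (Fin m))

/-- Configurations (not necessarily valid). -/
abbrev Cf (n m : ℕ) := Fin n → St m

abbrev Fn (n m : ℕ) := Cf n m → ℂ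
abbrev Pr (n m : ℕ) := Cf n m × Cf n m
abbrev Fn2 (n m : ℕ) := Pr n m → ℂ

variable {n m : ℕ}

/-- No two rooks in the same column. -/
def Valid (α : Cf n m) : Prop :=
  ∀ a b j, α a = some (some j) → α b = some (some j) → a = b

def Valid2 (ω : Pr n m) : Prop := Valid ω.1 ∧ Valid ω.2

/-- number of nonempty rows -/
def dd (α : Cf n m) : ℕ := (Finset.univ.filter fun a => α a ≠ none).card
/-- number of marked rows -/
def tt (α : Cf n m) : ℕ := (Finset.univ.filter fun a => α a = some none).card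
/-- the columns with a rook -/
def cols (α : Cf n m) : Finset (Fin m) :=
  Finset.univ.filter fun x => ∃ a, α a = some (some x)
/-- the nonempty rows -/
def supp (α : Cf n m) : Finset (Fin n) := Finset.univ.filter fun a => α a ≠ none

/-- the action of the group on configurations -/
def actC (g : G n m) (α : Cf n m) : Cf n m := fun a => (α (g.1.symm a)).map (Option.map g.2)
/-- the action on functions -/
def rF (g : G n m) : Fn n m →ₗ[ℂ] Fn n m where
  toFun f := fun α => f (actC g⁻¹ α)
  map_add' _ _ := rfl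
  map_smul' _ _ := rfl
/-- the action on functions of pairs -/
def rF2 (g : G n m) : Fn2 n m →ₗ[ℂ] Fn2 n m where
  toFun f := fun ω => f (actC g⁻¹ ω.1, actC g⁻¹ ω.2)
  map_add' _ _ := rfl
  map_smul' _ _ := rfl

/-- position-harmonic: the sum over the columns of a rook vanishes -/
def PosH (f : Fn n m) : Prop :=
  ∀ α a, ∑ x : Fin m, f (Function.update α a (some (some x))) = 0

/-- label-harmonic: the sum over the empty rows to which the object `s` may be added vanishes -/
def LabH (f : Fn n m) : Prop :=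
  ∀ (α : Cf n m) (s : Option (Fin m)),
    ∑ b ∈ Finset.univ.filter (fun b => α b = none), f (Function.update α b (some s)) = 0

/-- harmonic functions with valid support; `l = true` : also label-harmonic -/
def H1 (n m : ℕ) (l : Bool) : Submodule ℂ (Fn n m) where
  carrier := {f | (∀ α, f α ≠ 0 → Valid α) ∧ PosH f ∧ (l = true → LabH f)}
  zero_mem' := ⟨by intro α h; exact absurd rfl h, by intro α a; simp, by intro _ α s; simp⟩
  add_mem' := by
    rintro f g ⟨hf1, hf2, hf3⟩ ⟨hg1, hg2, hg3⟩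
    refine ⟨fun α h => ?_, fun α a => ?_, fun hl α s => ?_⟩
    · by_contra hv
      have h1 : f α = 0 := by by_contra h1; exact hv (hf1 α h1)
      have h2 : g α = 0 := by by_contra h2; exact hv (hg1 α h2)
      exact h (by rw [Pi.add_apply, h1, h2, add_zero])
    · simp only [Pi.add_apply, Finset.sum_add_distrib, hf2 α a, hg2 α a, add_zero]
    · simp only [Pi.add_apply, Finset.sum_add_distrib, hf3 hl α s, hg3 hl α s, add_zero]
  smul_mem' := by
    rintro c f ⟨hf1, hf2, hf3⟩
    refine ⟨fun α h => hf1 α ?_, fun α a => ?_, fun hl α s => ?_⟩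
    · intro h1; exact h (by rw [Pi.smul_apply, h1, smul_zero])
    · simp only [Pi.smul_apply, smul_eq_mul, ← Finset.mul_sum, hf2 α a, mul_zero]
    · simp only [Pi.smul_apply, smul_eq_mul, ← Finset.mul_sum, hf3 hl α s, mul_zero]

/-- support condition in terms of the numbers of objects and of marks -/
def S1 (n m : ℕ) (P : ℕ → ℕ → Prop) : Submodule ℂ (Fn n m) where
  carrier := {f | ∀ α, f α ≠ 0 → P (dd α) (tt α)}
  zero_mem' := by intro α h; exact absurd rfl h
  add_mem' := by
    intro f g hf hg α h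
    by_contra hv
    have h1 : f α = 0 := by by_contra h1; exact hv (hf α h1)
    have h2 : g α = 0 := by by_contra h2; exact hv (hg α h2)
    exact h (by rw [Pi.add_apply, h1, h2, add_zero])
  smul_mem' := by
    intro c f hf α h
    exact hf α (fun h1 => h (by rw [Pi.smul_apply, h1, smul_zero]))

/-- harmonic functions of degree `d` with at most `h` marks -/
def MH (n m : ℕ) (l : Bool) (d h : ℕ) : Submodule ℂ (Fn n m) :=
  H1 n m l ⊓ S1 n m (fun a t => a = d ∧ t ≤ h)

/-- functions of pairs, harmonic in each variable -/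
def UH (n m : ℕ) (l : Bool) : Submodule ℂ (Fn2 n m) where
  carrier := {f | (∀ β, (fun α => f (α, β)) ∈ H1 n m l) ∧ (∀ α, (fun β => f (α, β)) ∈ H1 n m l)}
  zero_mem' := ⟨fun _ => (H1 n m l).zero_mem, fun _ => (H1 n m l).zero_mem⟩
  add_mem' := fun hf hg => ⟨fun β => (H1 n m l).add_mem (hf.1 β) (hg.1 β),
    fun α => (H1 n m l).add_mem (hf.2 α) (hg.2 α)⟩
  smul_mem' := fun c _ hf => ⟨fun β => (H1 n m l).smul_mem c (hf.1 β),
    fun α => (H1 n m l).smul_mem c (hf.2 α)⟩

/-- NC-harmonic in positions: only rooks in non-shared columns are moved, to non-shared columns -/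
def NPos (f : Fn2 n m) : Prop :=
  (∀ α β a, ∑ x ∈ (cols β)ᶜ, f (Function.update α a (some (some x)), β) = 0) ∧
  (∀ α β a, ∑ x ∈ (cols α)ᶜ, f (α, Function.update β a (some (some x))) = 0)

/-- NC-harmonic in labels -/
def NLab (f : Fn2 n m) : Prop :=
  (∀ (α β : Cf n m) (s : Option (Fin m)),
    ∑ b ∈ Finset.univ.filter (fun b => α b = none ∧ β b = none),
      f (Function.update α b (some s), β) = 0) ∧
  (∀ (α β : Cf n m) (s : Option (Fin m)),
    ∑ b ∈ Finset.univ.filter (fun b => α b = none ∧ β b = none),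
      f (α, Function.update β b (some s)) = 0)

/-- NC-harmonic functions of valid pairs -/
def NH (n m : ℕ) (l : Bool) : Submodule ℂ (Fn2 n m) where
  carrier := {f | (∀ ω, f ω ≠ 0 → Valid2 ω) ∧ NPos f ∧ (l = true → NLab f)}
  zero_mem' := ⟨by intro α h; exact absurd rfl h, ⟨by intro α β a; simp, by intro α β a; simp⟩,
    fun _ => ⟨by intro α β s; simp, by intro α β s; simp⟩⟩
  add_mem' := by
    rintro f g ⟨hf1, hf2, hf3⟩ ⟨hg1, hg2, hg3⟩
    refine ⟨fun α h => ?_, ⟨fun α β a => ?_, fun α β a => ?_⟩,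
      fun hl => ⟨fun α β s => ?_, fun α β s => ?_⟩⟩
    · by_contra hv
      have h1 : f α = 0 := by by_contra h1; exact hv (hf1 α h1)
      have h2 : g α = 0 := by by_contra h2; exact hv (hg1 α h2)
      exact h (by rw [Pi.add_apply, h1, h2, add_zero])
    · simp only [Pi.add_apply, Finset.sum_add_distrib, hf2.1 α β a, hg2.1 α β a, add_zero]
    · simp only [Pi.add_apply, Finset.sum_add_distrib, hf2.2 α β a, hg2.2 α β a, add_zero]
    · simp only [Pi.add_apply, Finset.sum_add_distrib, (hf3 hl).1 α β s, (hg3 hl).1 α β s,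
        add_zero]
    · simp only [Pi.add_apply, Finset.sum_add_distrib, (hf3 hl).2 α β s, (hg3 hl).2 α β s,
        add_zero]
  smul_mem' := by
    rintro c f ⟨hf1, hf2, hf3⟩
    refine ⟨fun α h => hf1 α ?_, ⟨fun α β a => ?_, fun α β a => ?_⟩,
      fun hl => ⟨fun α β s => ?_, fun α β s => ?_⟩⟩
    · intro h1; exact h (by rw [Pi.smul_apply, h1, smul_zero])
    · simp only [Pi.smul_apply, smul_eq_mul, ← Finset.mul_sum, hf2.1 α β a, mul_zero]
    · simp only [Pi.smul_apply, smul_eq_mul, ← Finset.mul_sum, hf2.2 α β a, mul_zero]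
    · simp only [Pi.smul_apply, smul_eq_mul, ← Finset.mul_sum, (hf3 hl).1 α β s, mul_zero]
    · simp only [Pi.smul_apply, smul_eq_mul, ← Finset.mul_sum, (hf3 hl).2 α β s, mul_zero]

/-- support condition for functions of pairs:
`P (dd ω.1) (dd ω.2) (tt ω.1) (tt ω.2)` -/
def S2 (n m : ℕ) (P : ℕ → ℕ → ℕ → ℕ → Prop) : Submodule ℂ (Fn2 n m) where
  carrier := {f | ∀ ω, f ω ≠ 0 → P (dd ω.1) (dd ω.2) (tt ω.1) (tt ω.2)}
  zero_mem' := by intro α h; exact absurd rfl h
  add_mem' := by
    intro f g hf hg α h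
    by_contra hv
    have h1 : f α = 0 := by by_contra h1; exact hv (hf α h1)
    have h2 : g α = 0 := by by_contra h2; exact hv (hg α h2)
    exact h (by rw [Pi.add_apply, h1, h2, add_zero])
  smul_mem' := by
    intro c f hf α h
    exact hf α (fun h1 => h (by rw [Pi.smul_apply, h1, smul_zero]))

/-- sizes `(d, d')`, at most `h` marks in each -/
def PP (d d' h : ℕ) : ℕ → ℕ → ℕ → ℕ → Prop := fun a b s t => a = d ∧ b = d' ∧ s ≤ h ∧ t ≤ h

/-! ### Forgetting columns -/

/-- replace the objects in the rows of `T` by marks -/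
def mk (A : Cf n m) (T : Finset (Fin n)) : Cf n m := fun a => if a ∈ T then some none else A a

/-- `(L g)(A) = ∑_{T ⊆ supp A} g(mk A T)` for valid unmarked `A` -/
def Lop (n m : ℕ) : Fn n m →ₗ[ℂ] Fn n m where
  toFun g := fun A => if Valid A ∧ tt A = 0 then ∑ T ∈ (supp A).powerset, g (mk A T) else 0
  map_add' := by
    intro f g; funext A
    simp only [Pi.add_apply]
    split_ifs
    · rw [Finset.sum_add_distrib]
    · simp
  map_smul' := by
    intro c f; funext A
    simp only [Pi.smul_apply, RingHom.id_apply, smul_eq_mul]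
    split_ifs
    · rw [Finset.mul_sum]
    · simp

/-- the rows of `A` whose object is a rook in a column not used by `B` -/
def free (A B : Cf n m) : Finset (Fin n) :=
  Finset.univ.filter fun a => ∃ x, A a = some (some x) ∧ x ∉ cols B

/-- the same for pairs: only rooks in non-shared columns are forgotten -/
def Lop2 (n m : ℕ) : Fn2 n m →ₗ[ℂ] Fn2 n m where
  toFun g := fun ω => if Valid2 ω ∧ tt ω.1 = 0 ∧ tt ω.2 = 0 then
    ∑ T ∈ (free ω.1 ω.2).powerset, ∑ T' ∈ (free ω.2 ω.1).powerset, g (mk ω.1 T, mk ω.2 T')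
    else 0
  map_add' := by
    intro f g; funext A
    simp only [Pi.add_apply]
    split_ifs
    · simp only [Finset.sum_add_distrib]
    · simp
  map_smul' := by
    intro c f; funext A
    simp only [Pi.smul_apply, RingHom.id_apply, smul_eq_mul]
    split_ifs
    · simp only [Finset.mul_sum]
    · simp

/-! ### Components and flips -/

/-- rows `a ≠ b` sharing a column (one in the first, one in the second placement) -/
def Shr (ω : Pr n m) (a b : Fin n) : Prop :=
  ∃ j, (ω.1 a = some (some j) ∧ ω.2 b = some (some j)) ∨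
    (ω.2 a = some (some j) ∧ ω.1 b = some (some j))

/-- the graph on the rows -/
def gr (ω : Pr n m) : SimpleGraph (Fin n) where
  Adj a b := a ≠ b ∧ Shr ω a b
  symm := ⟨by
    rintro a b ⟨h, j, h1 | h1⟩
    · exact ⟨h.symm, j, Or.inr ⟨h1.2, h1.1⟩⟩
    · exact ⟨h.symm, j, Or.inl ⟨h1.2, h1.1⟩⟩⟩
  loopless := ⟨fun a h => h.1 rfl⟩

/-- the component of a row -/
def cmp (ω : Pr n m) (a : Fin n) : Finset (Fin n) :=
  Finset.univ.filter fun b => (gr ω).Reachable a b

/-- the components of a valid pair -/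
def comps (ω : Pr n m) : Finset (Finset (Fin n)) :=
  if Valid2 ω then Finset.univ.image (cmp ω) else ∅

/-- exchange the two placements on the rows of `κ` -/
def fl (κ : Finset (Fin n)) (ω : Pr n m) : Pr n m :=
  (fun a => if a ∈ κ then ω.2 a else ω.1 a, fun a => if a ∈ κ then ω.1 a else ω.2 a)

/-- the charge of a set of rows: (difference of numbers of objects, difference of numbers of
marks), second placement minus first placement -/
def ch (κ : Finset (Fin n)) (ω : Pr n m) : ℤ × ℤ :=
  (∑ a ∈ κ, ((if ω.2 a = none then 0 else 1) - (if ω.1 a = none then 0 else 1)),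
   ∑ a ∈ κ, ((if ω.2 a = some none then 1 else 0) - (if ω.1 a = some none then 1 else 0)))

/-! ### Abstract flip systems -/

/-- an abstract flip system -/
structure FS (Ω K : Type*) where
  comps : Ω → Finset K
  fl : K → Ω → Ω
  ch : K → Ω → ℤ × ℤ
  sw : Ω → Ω
  fl_fl : ∀ κ ω, fl κ (fl κ ω) = ω
  comm : ∀ κ κ' ω, fl κ (fl κ' ω) = fl κ' (fl κ ω)
  comps_fl : ∀ ω κ, κ ∈ comps ω → comps (fl κ ω) = comps ω
  ch_self : ∀ ω κ, κ ∈ comps ω → ch κ (fl κ ω) = - ch κ ω
  ch_ne : ∀ ω κ κ', κ ∈ comps ω → κ' ∈ comps ω → κ ≠ κ' → ch κ' (fl κ ω) = ch κ' ω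
  sw_sw : ∀ ω, sw (sw ω) = ω
  comps_sw : ∀ ω, comps (sw ω) = comps ω
  ch_sw : ∀ ω κ, ch κ (sw ω) = - ch κ ω
  fl_sw : ∀ ω κ, fl κ (sw ω) = sw (fl κ ω)

namespace FS

variable {Ω K : Type*} (S : FS Ω K)

/-- `(Op v f)(ω)` is the sum of `f(fl κ ω)` over the components `κ` of charge `-v` -/
def Op (v : ℤ × ℤ) : (Ω → ℂ) →ₗ[ℂ] (Ω → ℂ) where
  toFun f := fun ω => ∑ κ ∈ (S.comps ω).filter (fun κ => S.ch κ ω = -v), f (S.fl κ ω)
  map_add' := by intro f g; funext ω; simp [Finset.sum_add_distrib]
  map_smul' := by intro c f; funext ω; simp [Finset.mul_sum]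

/-- composition with the exchange of the two placements -/
def sg : (Ω → ℂ) →ₗ[ℂ] (Ω → ℂ) where
  toFun f := fun ω => f (S.sw ω)
  map_add' _ _ := rfl
  map_smul' _ _ := rfl

/-- number of components of charge `v` -/
def Nn (v : ℤ × ℤ) (ω : Ω) : ℤ := (((S.comps ω).filter (fun κ => S.ch κ ω = v)).card : ℤ)

/-- weight -/
def Hh (v : ℤ × ℤ) (ω : Ω) : ℤ := S.Nn v ω - S.Nn (-v) ω

/-- total charge -/
def Tot (ω : Ω) : ℤ × ℤ := ∑ κ ∈ S.comps ω, S.ch κ ω

/-- all charges are `0, ±(1,0), ±(0,1), ±(1,1)` -/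
def CH7 : Prop := ∀ ω, ∀ κ ∈ S.comps ω, S.ch κ ω = 0 ∨ S.ch κ ω = (1, 0) ∨ S.ch κ ω = (-1, 0) ∨
  S.ch κ ω = (0, 1) ∨ S.ch κ ω = (0, -1) ∨ S.ch κ ω = (1, 1) ∨ S.ch κ ω = (-1, -1)

/-- The injection. `inv` is the number of marks, `W (inv ω)` the window. -/
def Psi (inv : Ω → ℤ) (W : ℤ → ℤ) : (Ω → ℂ) →ₗ[ℂ] (Ω → ℂ) where
  toFun f := fun ω =>
    if (S.Tot ω).1 = 0 ∧ |(S.Tot ω).2| ≤ W (inv ω) ∧ 2 ∣ ((S.Tot ω).2 - W (inv ω)) then
      S.Op (1, 0) f ω +
        (if (S.Tot ω).2 = 1 ∨ (S.Tot ω).2 = - W (inv ω) then S.Op (0, -1) (S.Op (1, 1) f) ω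
          else if 2 ≤ (S.Tot ω).2 then - S.Op (-1, -1) (S.sg f) ω
          else S.Op (-1, -1) (S.sg f) ω)
    else 0
  map_add' := by
    intro f g; funext ω
    simp only [map_add, Pi.add_apply]
    split_ifs <;> ring
  map_smul' := by
    intro c f; funext ω
    simp only [map_smul, Pi.smul_apply, RingHom.id_apply, smul_eq_mul]
    split_ifs <;> ring

end FS

/-! ### The map to polynomials -/

/-- the value of a state in row `a` -/
def val (a : Fin n) : St m → Poly n m
  | none => 1
  | some none => ∑ j, MvPolynomial.X (a, j)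
  | some (some j) => MvPolynomial.X (a, j)

def mon (α : Cf n m) : Poly n m := ∏ a, val a (α a)

/-- `g ↦ ∑_α g(α) mon(α)` -/
def Th (n m : ℕ) : Fn n m →ₗ[ℂ] Poly n m where
  toFun g := ∑ α, g α • mon α
  map_add' := by intro f g; simp [add_smul, Finset.sum_add_distrib]
  map_smul' := by intro c f; simp [mul_smul, Finset.smul_sum]

/-- the matrix of an unmarked configuration -/
def mat (w : Cf n m) : Fin n × Fin m → ℂ := fun p => if w p.1 = some (some p.2) then 1 else 0

end Pool.RookLC
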