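import Pool.Agent.Work.MP_6f78fb_rk.Defs

/-!
# Interface: statements of the blocks (see BLUEPRINT.md for the proofs)
-/

open scoped BigOperators TensorProduct
open Classical

noncomputable section

namespace Pool.RookLC

/-! ## A. Linear algebra -/

/-- ORT: orthogonal decomposition inside stable subspaces. -/
def Stmt_ORT : Prop := ∀ (A B : Type) [Fintype A] [Fintype B]
  (U : (B → ℂ) →ₗ[ℂ] (A → ℂ)) (U' : (A → ℂ) →ₗ[ℂ] (B → ℂ)),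
  (∀ f χ, ∑ a, (starRingEnd ℂ) (f a) * U χ a = ∑ b, (starRingEnd ℂ) (U' f b) * χ b) →
  ∀ (W : Submodule ℂ (A → ℂ)) (W' : Submodule ℂ (B → ℂ)),
    (∀ χ ∈ W', U χ ∈ W) → (∀ f ∈ W, U' f ∈ W') →
    ∀ f ∈ W, ∃ f0 ∈ W, ∃ χ ∈ W', f = f0 + U χ ∧ U' f0 = 0

/-- PROJ: equivariant projections (averaging). -/
def Stmt_PROJ : Prop := ∀ (Γ : Type) [Group Γ] [Fintype Γ] (E : Type) [AddCommGroup E]
  [Module ℂ E] (ρ : Γ → E →ₗ[ℂ] E), (∀ g h, ρ (g * h) = ρ g ∘ₗ ρ h) → ρ 1 = LinearMap.id →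
  ∀ W : Submodule ℂ E, (∀ g, ∀ w ∈ W, ρ g w ∈ W) →
    ∃ P : E →ₗ[ℂ] E, (∀ x, P x ∈ W) ∧ (∀ w ∈ W, P w = w) ∧ ∀ g, P ∘ₗ ρ g = ρ g ∘ₗ P

/-- TENS: tensor products of spaces of functions. -/
def Stmt_TENS : Prop := ∀ (A B : Type) [Fintype A] [Fintype B] (P : Submodule ℂ (A → ℂ))
  (Q : Submodule ℂ (B → ℂ)), ∃ e : (P ⊗[ℂ] Q) →ₗ[ℂ] (A × B → ℂ), Function.Injective e ∧
    (∀ (p : P) (q : Q) a b, e (p ⊗ₜ[ℂ] q) (a, b) = (p : A → ℂ) a * (q : B → ℂ) b) ∧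
    ∀ F : A × B → ℂ, F ∈ LinearMap.range e ↔
      (∀ b, (fun a => F (a, b)) ∈ P) ∧ (∀ a, (fun b => F (a, b)) ∈ Q)

/-- ALT: a harmonic function on injections all whose alternating cubes vanish is zero. -/
def Stmt_ALT : Prop := ∀ (U X : Type) [Fintype U] [Fintype X] [DecidableEq U]
  (g : (U → X) → ℂ), (∀ x, g x ≠ 0 → Function.Injective x) →
  (∀ x a, ∑ y, g (Function.update x a y) = 0) → 2 * Fintype.card U ≤ Fintype.card X →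
  (∀ x y : U → X, Function.Injective (Sum.elim x y) →
    ∑ ε : Finset U, (-1 : ℂ) ^ ε.card * g (fun u => if u ∈ ε then y u else x u) = 0) →
  g = 0

/-! ## B. Harmonic functions -/

/-- SPAN -/
def Stmt_SPAN : Prop := ∀ (n m d : ℕ) (l : Bool) (φ : Fn n m),
  (∀ α, φ α ≠ 0 → Valid α ∧ tt α = 0 ∧ dd α = d) → (l = true → LabH φ) →
  ∃ g ∈ H1 n m l ⊓ S1 n m (fun a _ => a = d), Lop n m g = φ

/-- INJ2 -/
def Stmt_INJ2 : Prop := ∀ n m i : ℕ, 4 * i ≤ m →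
  ∀ g ∈ NH n m false ⊓ S2 n m (fun a b _ _ => a = i ∧ b = i), Lop2 n m g = 0 → g = 0

/-- LT: leading terms (with respect to the number of coincidences). -/
def Stmt_LT : Prop := ∀ (n m : ℕ) (l : Bool) (P : ℕ → ℕ → ℕ → ℕ → Prop),
  ∃ Θ : Fn2 n m →ₗ[ℂ] Fn2 n m, (∀ g, Θ ∘ₗ rF2 g = rF2 g ∘ₗ Θ) ∧
    ∀ f ∈ UH n m l ⊓ S2 n m P, Θ f ∈ NH n m l ⊓ S2 n m P ∧ (Θ f = 0 → f = 0)

/-- SPLIT: the dimensions are additive in the support condition. -/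
def Stmt_SPLIT : Prop := ∀ (n m : ℕ) (l : Bool) (P Q : ℕ → ℕ → ℕ → ℕ → Prop),
  Module.finrank ℂ ↥(UH n m l ⊓ S2 n m P) =
    Module.finrank ℂ ↥(UH n m l ⊓ S2 n m (fun a b s t => P a b s t ∧ Q a b s t)) +
    Module.finrank ℂ ↥(UH n m l ⊓ S2 n m (fun a b s t => P a b s t ∧ ¬ Q a b s t)) ∧
  Module.finrank ℂ ↥(NH n m l ⊓ S2 n m P) =
    Module.finrank ℂ ↥(NH n m l ⊓ S2 n m (fun a b s t => P a b s t ∧ Q a b s t)) +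
    Module.finrank ℂ ↥(NH n m l ⊓ S2 n m (fun a b s t => P a b s t ∧ ¬ Q a b s t))

/-- FIN -/
def Stmt_FIN : Prop := ∀ n m i h : ℕ, 4 * i ≤ m →
  Module.finrank ℂ ↥(NH n m false ⊓ S2 n m (PP i i h)) ≤
    Module.finrank ℂ ↥(UH n m false ⊓ S2 n m (PP i i h))

/-- supports: valid unmarked configurations of size `i` -/
def Um {n m : ℕ} (i : ℕ) (α : Cf n m) : Prop := Valid α ∧ tt α = 0 ∧ dd α = i

/-- label-harmonic functions on unmarked placements of size `i` -/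
def LH1 (n m i : ℕ) : Submodule ℂ (Fn n m) where
  carrier := {f | (∀ α, f α ≠ 0 → Um i α) ∧ LabH f}
  zero_mem' := ⟨fun α h => absurd rfl h, by intro α s; simp⟩
  add_mem' := by
    rintro f g ⟨hf1, hf2⟩ ⟨hg1, hg2⟩
    refine ⟨fun α h => ?_, fun α s => ?_⟩
    · by_contra hv
      have h1 : f α = 0 := by by_contra h1; exact hv (hf1 α h1)
      have h2 : g α = 0 := by by_contra h2; exact hv (hg1 α h2)
      exact h (by rw [Pi.add_apply, h1, h2, add_zero])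
    · simp only [Pi.add_apply, Finset.sum_add_distrib, hf2 α s, hg2 α s, add_zero]
  smul_mem' := by
    rintro c f ⟨hf1, hf2⟩
    refine ⟨fun α h => hf1 α ?_, fun α s => ?_⟩
    · intro h1; exact h (by rw [Pi.smul_apply, h1, smul_zero])
    · simp only [Pi.smul_apply, smul_eq_mul, ← Finset.mul_sum, hf2 α s, mul_zero]

/-- NC-label-harmonic functions on pairs of unmarked placements of size `i` -/
def LN2 (n m i : ℕ) : Submodule ℂ (Fn2 n m) where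
  carrier := {f | (∀ ω, f ω ≠ 0 → Um i ω.1 ∧ Um i ω.2) ∧ NLab f}
  zero_mem' := ⟨fun α h => absurd rfl h, by intro α β s; simp, by intro α β s; simp⟩
  add_mem' := by
    rintro f g ⟨hf1, hf2⟩ ⟨hg1, hg2⟩
    refine ⟨fun α h => ?_, fun α β s => ?_, fun α β s => ?_⟩
    · by_contra hv
      have h1 : f α = 0 := by by_contra h1; exact hv (hf1 α h1)
      have h2 : g α = 0 := by by_contra h2; exact hv (hg1 α h2)
      exact h (by rw [Pi.add_apply, h1, h2, add_zero])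
    · simp only [Pi.add_apply, Finset.sum_add_distrib, hf2.1 α β s, hg2.1 α β s, add_zero]
    · simp only [Pi.add_apply, Finset.sum_add_distrib, hf2.2 α β s, hg2.2 α β s, add_zero]
  smul_mem' := by
    rintro c f ⟨hf1, hf2⟩
    refine ⟨fun α h => hf1 α ?_, fun α β s => ?_, fun α β s => ?_⟩
    · intro h1; exact h (by rw [Pi.smul_apply, h1, smul_zero])
    · simp only [Pi.smul_apply, smul_eq_mul, ← Finset.mul_sum, hf2.1 α β s, mul_zero]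
    · simp only [Pi.smul_apply, smul_eq_mul, ← Finset.mul_sum, hf2.2 α β s, mul_zero]

/-- TRA: the transpose of FIN (`h = 0`). -/
def Stmt_TRA : Prop := ∀ n m i : ℕ, 4 * i ≤ n →
  Module.finrank ℂ ↥(LN2 n m i) ≤ Module.finrank ℂ ↥(LH1 n m i) ^ 2

/-- L2LAB -/
def Stmt_L2LAB : Prop := ∀ n m i : ℕ,
  ∀ g ∈ NH n m true ⊓ S2 n m (fun a b _ _ => a = i ∧ b = i), Lop2 n m g ∈ LN2 n m i

/-- FIN2 -/
def Stmt_FIN2 : Prop := ∀ n m i h : ℕ, 4 * i ≤ m → 4 * i ≤ n →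
  Module.finrank ℂ ↥(NH n m true ⊓ S2 n m (PP i i h)) ≤
    Module.finrank ℂ ↥(UH n m true ⊓ S2 n m (PP i i h))

/-! ## C. Flips -/

/-- COMPA: the components and flips form a flip system. -/
def Stmt_COMPA : Prop := ∀ n m : ℕ, ∃ S : FS (Pr n m) (Finset (Fin n)),
  S.comps = comps ∧ S.fl = fl ∧ S.ch = ch ∧ S.sw = Prod.swap

/-- COMPB: charges. -/
def Stmt_COMPB : Prop := ∀ (n m : ℕ) (ω : Pr n m),
  (∀ κ ∈ comps ω, ch κ ω = 0 ∨ ch κ ω = (1, 0) ∨ ch κ ω = (-1, 0) ∨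
    ch κ ω = (0, 1) ∨ ch κ ω = (0, -1) ∨ ch κ ω = (1, 1) ∨ ch κ ω = (-1, -1)) ∧
  (Valid2 ω → ∑ κ ∈ comps ω, ch κ ω = ((dd ω.2 : ℤ) - dd ω.1, (tt ω.2 : ℤ) - tt ω.1))

/-- FOPS: the algebra of the operators `Op v`. -/
def Stmt_FOPS : Prop := ∀ (Ω K : Type) [Fintype Ω] (S : FS Ω K),
  (∀ v f g, ∑ ω, S.Op v f ω * (starRingEnd ℂ) (g ω) =
    ∑ ω, f ω * (starRingEnd ℂ) (S.Op (-v) g ω)) ∧
  (∀ v f, v ≠ 0 → ∀ ω, S.Op (-v) (S.Op v f) ω =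
    S.Op v (S.Op (-v) f) ω + (S.Hh v ω : ℂ) * f ω) ∧
  (∀ v w f, v ≠ 0 → w ≠ 0 → v ≠ -w → S.Op v (S.Op w f) = S.Op w (S.Op v f)) ∧
  (∀ v f, S.sg (S.Op v f) = S.Op (-v) (S.sg f)) ∧
  (∀ v ω κ, v ≠ 0 → κ ∈ S.comps ω → S.ch κ ω = -v →
    S.Tot (S.fl κ ω) = S.Tot ω + 2 • v ∧ S.Hh v (S.fl κ ω) = S.Hh v ω + 2 ∧
    ∀ w, w ≠ v → w ≠ -v → S.Hh w (S.fl κ ω) = S.Hh w ω) ∧
  (∀ ω, S.Tot (S.sw ω) = - S.Tot ω) ∧ (∀ v ω, S.Hh v (S.sw ω) = - S.Hh v ω) ∧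
  (∀ v f, v ≠ 0 → ∑ ω, ‖S.Op v f ω‖ ^ 2 =
    ∑ ω, ‖S.Op (-v) f ω‖ ^ 2 + ∑ ω, (S.Hh v ω : ℝ) * ‖f ω‖ ^ 2) ∧
  (S.CH7 → ∀ ω, S.Tot ω = (S.Hh (1, 0) ω + S.Hh (1, 1) ω, S.Hh (0, 1) ω + S.Hh (1, 1) ω))

/-- HL: hard Lefschetz type injectivity. -/
def Stmt_HL : Prop := ∀ (Ω K : Type) [Fintype Ω] (S : FS Ω K) (v : ℤ × ℤ) (p : ℤ) (k : ℕ),
  v ≠ 0 → (k : ℤ) ≤ p → ∀ f : Ω → ℂ, (∀ ω, f ω ≠ 0 → S.Hh v ω = p) →
    ((S.Op v) ^ k) f = 0 → f = 0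

/-- CHAIN -/
def Stmt_CHAIN : Prop := ∀ (Ω K : Type) [Fintype Ω] (S : FS Ω K), S.CH7 → ∀ u : ℤ, u ≤ 1 →
  ∀ f : Ω → ℂ, (∀ ω, f ω ≠ 0 → S.Tot ω = (2, u)) →
    S.Op (1, 0) f + S.Op (0, -1) (S.Op (1, 1) f) = 0 → f = 0

/-- PAIR -/
def Stmt_PAIR : Prop := ∀ (Ω K : Type) [Fintype Ω] (S : FS Ω K), S.CH7 → ∀ u : ℤ,
  ∀ f f' : Ω → ℂ, (∀ ω, f ω ≠ 0 → S.Tot ω = (2, u)) → (∀ ω, f' ω ≠ 0 → S.Tot ω = (2, 2 - u)) →
    S.Op (1, 0) f - S.Op (-1, -1) (S.sg f') = 0 →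
    S.Op (1, 0) f' + S.Op (-1, -1) (S.sg f) = 0 → f = 0 ∧ f' = 0

/-- PSI -/
def Stmt_PSI : Prop := ∀ (Ω K : Type) [Fintype Ω] (S : FS Ω K), S.CH7 →
  ∀ (inv : Ω → ℤ) (W : ℤ → ℤ), (∀ ω, ∀ κ ∈ S.comps ω, inv (S.fl κ ω) = inv ω) →
  (∀ ω, inv (S.sw ω) = inv ω) →
  ∀ f : Ω → ℂ, (∀ ω, f ω ≠ 0 → (S.Tot ω).1 = 2 ∧ |(S.Tot ω).2| ≤ W (inv ω) ∧
    2 ∣ ((S.Tot ω).2 - W (inv ω))) → S.Psi inv W f = 0 → f = 0

/-- NST: the operators preserve the NC-harmonic functions. -/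
def Stmt_NST : Prop := ∀ (n m : ℕ) (l : Bool) (S : FS (Pr n m) (Finset (Fin n))),
  S.comps = comps → S.fl = fl → S.ch = ch → S.sw = Prod.swap →
  (∀ v, ∀ f ∈ NH n m l, S.Op v f ∈ NH n m l) ∧ (∀ f ∈ NH n m l, S.sg f ∈ NH n m l) ∧
  (∀ (φ : ℕ → ℕ → ℕ → ℕ → ℂ), ∀ f ∈ NH n m l,
    (fun ω => φ (dd ω.1) (dd ω.2) (tt ω.1) (tt ω.2) * f ω) ∈ NH n m l)

/-- EQV: the operators commute with the group. -/
def Stmt_EQV : Prop := ∀ (n m : ℕ) (S : FS (Pr n m) (Finset (Fin n))),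
  S.comps = comps → S.fl = fl → S.ch = ch → S.sw = Prod.swap → ∀ g : G n m,
  (∀ v, S.Op v ∘ₗ rF2 g = rF2 g ∘ₗ S.Op v) ∧ (S.sg ∘ₗ rF2 g = rF2 g ∘ₗ S.sg) ∧
  (∀ ω : Pr n m, S.Tot (actC g ω.1, actC g ω.2) = S.Tot ω)

/-- FM: the main injection. -/
def Stmt_FM : Prop := ∀ (n m : ℕ) (l : Bool) (i h : ℕ),
  ∃ Ψ : Fn2 n m →ₗ[ℂ] Fn2 n m, (∀ g, Ψ ∘ₗ rF2 g = rF2 g ∘ₗ Ψ) ∧
    ∀ f ∈ NH n m l ⊓ S2 n m (PP i (i + 2) h),
      Ψ f ∈ NH n m l ⊓ S2 n m (PP (i + 1) (i + 1) h) ∧ (Ψ f = 0 → f = 0)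

/-! ## D. Orbit harmonics -/

/-- ACT: the action on configurations and functions. -/
def Stmt_ACT : Prop := ∀ n m : ℕ,
  (∀ (g h : G n m) (α : Cf n m), actC (g * h) α = actC g (actC h α)) ∧
  (∀ α : Cf n m, actC (1 : G n m) α = α) ∧
  (∀ (g : G n m) (α : Cf n m), (Valid (actC g α) ↔ Valid α) ∧ dd (actC g α) = dd α ∧
    tt (actC g α) = tt α) ∧
  (∀ (g : G n m) (l : Bool), ∀ f ∈ H1 n m l, rF g f ∈ H1 n m l) ∧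
  (∀ (g : G n m) (l : Bool) (d h : ℕ), ∀ f ∈ MH n m l d h, rF g f ∈ MH n m l d h) ∧
  (∀ (g : G n m) (l : Bool) P, ∀ f ∈ UH n m l ⊓ S2 n m P, rF2 g f ∈ UH n m l ⊓ S2 n m P) ∧
  (∀ (g : G n m) (l : Bool) P, ∀ f ∈ NH n m l ⊓ S2 n m P, rF2 g f ∈ NH n m l ⊓ S2 n m P) ∧
  (∀ (g : G n m) (f : Fn n m), Th n m (rF g f) = actP g (Th n m f))

/-- RG: homogeneous elements of the associated graded ideal. -/
def Stmt_RG : Prop := ∀ (n m : ℕ) (Z : Set (Fin n × Fin m → ℂ)) (d : ℕ) (f : Poly n m),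
  f.IsHomogeneous d → (f ∈ grI Z ↔ ∃ q : Poly n m, (q = 0 ∨ q.totalDegree < d) ∧ f + q ∈ vanI Z)

/-- VSP: the placement monomials span. -/
def Stmt_VSP : Prop := ∀ (n m r d : ℕ) (f : Poly n m), f.IsHomogeneous d →
  ∃ φ : Fn n m, (∀ α, φ α ≠ 0 → Um d α) ∧ f - Th n m φ ∈ grI (UZ n m r)

/-- FILL -/
def Stmt_FILL : Prop := ∀ (n m r : ℕ) (g : Fn n m), (∀ α, g α ≠ 0 → Valid α) →
  Th n m (Lop n m g) - Th n m g ∈ grI (UZ n m r)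

/-- MRK: too many marks. -/
def Stmt_MRK : Prop := ∀ (n m r : ℕ) (α : Cf n m), r ≤ n → n < r + tt α →
  mon α ∈ grI (UZ n m r)

/-- LRED: reduction to label-harmonic functions if all columns are full. -/
def Stmt_LRED : Prop := ∀ (n m d : ℕ) (φ : Fn n m), (∀ α, φ α ≠ 0 → Um d α) →
  ∃ φ0 : Fn n m, (∀ α, φ0 α ≠ 0 → Um d α) ∧ LabH φ0 ∧
    Th n m φ - Th n m φ0 ∈ grI (UZ n m m)

/-- THS: surjectivity. -/
def Stmt_THS : Prop := ∀ (n m r d : ℕ) (l : Bool), r ≤ n → (l = true → r = m) →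
  ∀ f : Poly n m, f.IsHomogeneous d → ∃ g ∈ MH n m l d (n - r),
    f - Th n m g ∈ grI (UZ n m r)

/-- THI: injectivity. -/
def Stmt_THI : Prop := ∀ n m r i : ℕ, r ≤ n → r + i ≤ m → 2 * i ≤ m →
  ∀ g ∈ MH n m false i (n - r), Th n m g ∈ grI (UZ n m r) → g = 0

/-- THI2: injectivity if all columns are full. -/
def Stmt_THI2 : Prop := ∀ n m i : ℕ, m ≤ n → 2 * i ≤ m →
  ∀ g ∈ MH n m true i (n - m), Th n m g ∈ grI (UZ n m m) → g = 0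

/-- TRS: transposition. -/
def Stmt_TRS : Prop := ∀ n m r i : ℕ, Surj m n r i → Surj n m r i

/-- NEAR: restriction from a board with one more row. -/
def Stmt_NEAR : Prop := ∀ n m i : ℕ, 1 ≤ m → Surj (n + 1) m m i → Surj n m (m - 1) i

/-! ## Final -/

/-- MAIN: (A) degrees `i` with `4 i ≤ m` and `r + i ≤ m`; (B) `r = m ≤ n`, `4 i ≤ m`. -/
def Stmt_MAIN : Prop :=
  (∀ n m r i : ℕ, r ≤ n → r ≤ m → 1 ≤ i → 4 * i ≤ m → r + i ≤ m → Surj n m r i) ∧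
  (∀ n m i : ℕ, m ≤ n → 1 ≤ i → 4 * i ≤ m → Surj n m m i) ∧
  (∀ n m r : ℕ, 1 ≤ r → r ≤ n → 4 * n ≤ m + 4 → LogConc n m r)

end Pool.RookLC
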