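import Mathlib

/-!
# Orbit harmonics of the rook placement loci (definitions of the problem)

`Poly n m` is the coordinate ring of `n × m` matrices, `UZ n m r` the locus of rook placements
with at least `r` rooks, `grI` the associated graded ideal, `V` the graded pieces of the quotient,
`actV` the action of `S_n × S_m`.
-/

open scoped BigOperators TensorProduct
open Classical

noncomputable section

namespace Pool.RookLC

/-- Coordinate ring of the space of `n × m` matrices. -/
abbrev Poly (n m : ℕ) := MvPolynomial (Fin n × Fin m) ℂ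

/-- A rook placement on the `n × m` board, as a matrix with entries in `{0,1}` and at most one `1`
in each row and each column. -/
def IsRook {n m : ℕ} (M : Fin n × Fin m → ℂ) : Prop :=
  (∀ p, M p = 0 ∨ M p = 1) ∧
  (∀ a j j', M (a, j) = 1 → M (a, j') = 1 → j = j') ∧
  (∀ a a' j, M (a, j) = 1 → M (a', j) = 1 → a = a')

/-- The locus `UZ_{n,m,r}`: rook placements with at least `r` rooks. -/
def UZ (n m r : ℕ) : Set (Fin n × Fin m → ℂ) :=
  {M | IsRook M ∧ r ≤ (Finset.univ.filter fun p => M p = 1).card}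

/-- The vanishing ideal of a set of matrices. -/
def vanI {n m : ℕ} (Z : Set (Fin n × Fin m → ℂ)) : Ideal (Poly n m) where
  carrier := {f | ∀ x ∈ Z, MvPolynomial.eval x f = 0}
  zero_mem' := by intro x _; simp
  add_mem' := by
    intro f g hf hg x hx
    rw [map_add, hf x hx, hg x hx, add_zero]
  smul_mem' := by
    intro c f hf x hx
    rw [smul_eq_mul, map_mul, hf x hx, mul_zero]

/-- The homogeneous component of highest degree. -/
def topForm {n m : ℕ} (f : Poly n m) : Poly n m :=
  MvPolynomial.homogeneousComponent f.totalDegree f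

/-- The associated graded ideal `gr I(Z)`. -/
def grI {n m : ℕ} (Z : Set (Fin n × Fin m → ℂ)) : Ideal (Poly n m) :=
  Ideal.span {g | ∃ f ∈ vanI Z, f ≠ 0 ∧ g = topForm f}

/-- The group `S_n × S_m`. -/
abbrev G (n m : ℕ) := Equiv.Perm (Fin n) × Equiv.Perm (Fin m)

/-- Action of `S_n × S_m` on polynomials, `x_{i,j} ↦ x_{σ i, τ j}`. -/
def actP {n m : ℕ} (g : G n m) : Poly n m →ₐ[ℂ] Poly n m :=
  MvPolynomial.rename (fun p => (g.1 p.1, g.2 p.2))

theorem actP_inj {n m : ℕ} (g : G n m) :
    Function.Injective (fun p : Fin n × Fin m => (g.1 p.1, g.2 p.2)) := by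
  rintro ⟨a, j⟩ ⟨b, k⟩ h
  simp only [Prod.mk.injEq, EmbeddingLike.apply_eq_iff_eq] at h
  exact Prod.ext h.1 h.2

theorem homComp_act {n m : ℕ} (g : G n m) (f : Poly n m) (d : ℕ) :
    MvPolynomial.homogeneousComponent d (actP g f) =
      actP g (MvPolynomial.homogeneousComponent d f) := by
  have h1 : ∀ e : ℕ, (actP g (MvPolynomial.homogeneousComponent e f)).IsHomogeneous e :=
    fun e => (MvPolynomial.homogeneousComponent_isHomogeneous e f).rename_isHomogeneous
  conv_lhs => rw [← MvPolynomial.sum_homogeneousComponent f, map_sum, map_sum]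
  by_cases hd : d ≤ f.totalDegree
  · rw [Finset.sum_eq_single d]
    · rw [MvPolynomial.homogeneousComponent_of_mem (h1 d), if_pos rfl]
    · intro e _ he
      rw [MvPolynomial.homogeneousComponent_of_mem (h1 e), if_neg (Ne.symm he)]
    · intro h
      exact absurd (Finset.mem_range.2 (by omega)) h
  · rw [MvPolynomial.homogeneousComponent_eq_zero d f (by omega), map_zero]
    refine Finset.sum_eq_zero fun e he => ?_
    rw [MvPolynomial.homogeneousComponent_of_mem (h1 e), if_neg]
    rw [Finset.mem_range] at he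
    omega

theorem topForm_act {n m : ℕ} (g : G n m) (f : Poly n m) :
    topForm (actP g f) = actP g (topForm f) := by
  unfold topForm
  have : (actP g f).totalDegree = f.totalDegree := by
    apply le_antisymm
    · exact MvPolynomial.totalDegree_rename_le _ f
    · have h : f = actP g⁻¹ (actP g f) := by
        unfold actP
        rw [MvPolynomial.rename_rename]
        have : ((fun p : Fin n × Fin m => (g⁻¹.1 p.1, g⁻¹.2 p.2)) ∘
            fun p => (g.1 p.1, g.2 p.2)) = id := by
          funext p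
          simp
        rw [this, MvPolynomial.rename_id_apply]
      conv_lhs => rw [h]
      exact MvPolynomial.totalDegree_rename_le _ _
  rw [this, homComp_act]

theorem UZ_act {n m r : ℕ} (g : G n m) {M : Fin n × Fin m → ℂ} (hM : M ∈ UZ n m r) :
    (fun p => M (g.1 p.1, g.2 p.2)) ∈ UZ n m r := by
  obtain ⟨⟨h0, h1, h2⟩, hr⟩ := hM
  refine ⟨⟨fun p => h0 _, fun a j j' hj hj' => ?_, fun a a' j ha ha' => ?_⟩, ?_⟩
  · exact g.2.injective (h1 _ _ _ hj hj')
  · exact g.1.injective (h2 _ _ _ ha ha')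
  · refine hr.trans (le_of_eq ?_)
    symm
    refine Finset.card_bij (fun p _ => (g.1 p.1, g.2 p.2)) ?_ ?_ ?_
    · intro p hp
      rw [Finset.mem_filter] at hp ⊢
      exact ⟨Finset.mem_univ _, hp.2⟩
    · intro p _ q _ h
      exact actP_inj g h
    · rintro ⟨a, j⟩ hp
      rw [Finset.mem_filter] at hp
      refine ⟨(g.1.symm a, g.2.symm j), ?_, ?_⟩
      · rw [Finset.mem_filter]
        exact ⟨Finset.mem_univ _, by simpa using hp.2⟩
      · simp

theorem vanI_act {n m r : ℕ} (g : G n m) {f : Poly n m} (hf : f ∈ vanI (UZ n m r)) :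
    actP g f ∈ vanI (UZ n m r) := by
  intro x hx
  unfold actP
  rw [MvPolynomial.eval_rename]
  exact hf _ (UZ_act g hx)

theorem grI_act {n m r : ℕ} (g : G n m) :
    grI (UZ n m r) ≤ (grI (UZ n m r)).comap (actP g) := by
  unfold grI
  rw [Ideal.span_le]
  rintro _ ⟨f, hf, hf0, rfl⟩
  rw [SetLike.mem_coe, Ideal.mem_comap, ← topForm_act]
  refine Ideal.subset_span ⟨actP g f, vanI_act g hf, ?_, rfl⟩
  intro h
  apply hf0
  unfold actP at h
  exact (map_eq_zero_iff _ (MvPolynomial.rename_injective _ (actP_inj g))).1 h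

/-- The ring `R(UZ_{n,m,r})`. -/
abbrev RR (n m r : ℕ) := Poly n m ⧸ grI (UZ n m r)

/-- The graded piece `V_d` of `R(UZ_{n,m,r})`: the image of the homogeneous polynomials of
degree `d`. -/
def V (n m r d : ℕ) : Submodule ℂ (RR n m r) :=
  (MvPolynomial.homogeneousSubmodule (Fin n × Fin m) ℂ d).map
    (Ideal.Quotient.mkₐ ℂ (grI (UZ n m r))).toLinearMap

/-- The action of `S_n × S_m` on `R(UZ_{n,m,r})`. -/
def actR (n m r : ℕ) (g : G n m) : RR n m r →ₐ[ℂ] RR n m r :=
  Ideal.quotientMapₐ (grI (UZ n m r)) (actP g) (grI_act g)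

theorem actR_mem {n m r : ℕ} (d : ℕ) (g : G n m) :
    ∀ v ∈ V n m r d, (actR n m r g).toLinearMap v ∈ V n m r d := by
  rintro _ ⟨f, hf, rfl⟩
  refine ⟨actP g f, ?_, rfl⟩
  rw [SetLike.mem_coe, MvPolynomial.mem_homogeneousSubmodule] at hf ⊢
  exact hf.rename_isHomogeneous

/-- The action of `S_n × S_m` on `V_d`. -/
def actV (n m r d : ℕ) (g : G n m) : V n m r d →ₗ[ℂ] V n m r d :=
  (actR n m r g).toLinearMap.restrict (actR_mem d g)

/-- There is a surjective homomorphism of `S_n × S_m`-modules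
`V_i ⊗ V_i ↠ V_{i-1} ⊗ V_{i+1}` (diagonal actions). -/
def Surj (n m r i : ℕ) : Prop :=
  ∃ Φ : (V n m r i ⊗[ℂ] V n m r i) →ₗ[ℂ] (V n m r (i - 1) ⊗[ℂ] V n m r (i + 1)),
    Function.Surjective Φ ∧
    ∀ g : G n m, Φ ∘ₗ TensorProduct.map (actV n m r i g) (actV n m r i g) =
      TensorProduct.map (actV n m r (i - 1) g) (actV n m r (i + 1) g) ∘ₗ Φ

/-- `N` is the top degree of `R(UZ_{n,m,r})`. -/
def IsTop (n m r N : ℕ) : Prop := V n m r N ≠ ⊥ ∧ ∀ d, N < d → V n m r d = ⊥

/-- `R(UZ_{n,m,r})` is `S_n × S_m`-equivariantly log-concave. -/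
def LogConc (n m r : ℕ) : Prop := ∀ N, IsTop n m r N → ∀ i, 1 < i → i < N → Surj n m r i

end Pool.RookLC
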